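import Pool.Agent.CMG.Stmts

set_option autoImplicit false

open Set Topology MeasureTheory
open scoped BigOperators Pointwise

namespace Pool.Agent.CMG.H32

open Pool.Agent.LSG Pool.Agent.CMG

/-- Every ultrafilter on a precompact group is left Cauchy. -/
theorem left_cauchy {H : Type} [Group H] [TopologicalSpace H] [IsTopologicalGroup H]
    (hp : ∀ U ∈ nhds (1 : H), ∃ F : Finset H, (⋃ g ∈ F, g • U) = Set.univ)
    (f : Ultrafilter H) (V : Set H) (hV : V ∈ nhds (1 : H)) :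
    ∃ A ∈ f, ∀ x ∈ A, ∀ y ∈ A, x⁻¹ * y ∈ V := by
  have hc : Filter.Tendsto (fun p : H × H => p.1⁻¹ * p.2) (nhds ((1 : H), (1 : H)))
      (nhds (1 : H)) := by
    have : Continuous (fun p : H × H => p.1⁻¹ * p.2) := by fun_prop
    have h2 := this.tendsto ((1 : H), (1 : H))
    simpa using h2
  have h1 := hc hV
  rw [Filter.mem_map, nhds_prod_eq, Filter.mem_prod_iff] at h1
  obtain ⟨P, hP, Q, hQ, hPQ⟩ := h1
  obtain ⟨F, hF⟩ := hp (P ∩ Q) (Filter.inter_mem hP hQ)
  have h3 : (⋃ g ∈ (F : Set H), g • (P ∩ Q)) ∈ f := by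
    have : (⋃ g ∈ (F : Set H), g • (P ∩ Q)) = Set.univ := by
      rw [← hF]
      simp
    rw [this]
    exact Filter.univ_mem
  rw [Ultrafilter.finite_biUnion_mem_iff (Finset.finite_toSet F)] at h3
  obtain ⟨g, -, hg⟩ := h3
  refine ⟨_, hg, ?_⟩
  rintro x ⟨a, ha, rfl⟩ y ⟨b, hb, rfl⟩
  have h4 : ((a, b) : H × H) ∈ P ×ˢ Q := ⟨ha.1, hb.2⟩
  have h5 := hPQ h4
  simp only [Set.mem_preimage] at h5
  have h6 : (g • a)⁻¹ * (g • b) = a⁻¹ * b := by
    simp [mul_assoc]
  simpa [h6] using h5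

/-- Every ultrafilter on a precompact group is right Cauchy. -/
theorem right_cauchy {H : Type} [Group H] [TopologicalSpace H] [IsTopologicalGroup H]
    (hp : ∀ U ∈ nhds (1 : H), ∃ F : Finset H, (⋃ g ∈ F, g • U) = Set.univ)
    (f : Ultrafilter H) (V : Set H) (hV : V ∈ nhds (1 : H)) :
    ∃ A ∈ f, ∀ x ∈ A, ∀ y ∈ A, x * y⁻¹ ∈ V := by
  obtain ⟨A, hA, h⟩ := left_cauchy hp (f.map (fun x : H => x⁻¹)) V hV
  refine ⟨_, hA, ?_⟩
  intro x hx y hy
  have := h _ hx _ hy
  simpa using this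

theorem kle : KleStmt := by
  intro H _ _ _ _ hp
  let := TopologicalSpace.upgradeIsCompletelyMetrizable H
  rw [← isCompact_univ_iff, isCompact_iff_ultrafilter_le_nhds]
  intro f _
  -- the open dense sets
  let O : ℕ → Set H := fun N => {y | ∃ W : Set H, IsOpen W ∧ y ∈ W ∧ ∃ A ∈ f,
    ∀ x ∈ A, ∀ x' ∈ A, ∀ w ∈ W, ∀ w' ∈ W, dist (x * w) (x' * w') < 1 / ((N : ℝ) + 1)}
  have hO : ∀ N, IsOpen (O N) := by
    intro N
    rw [isOpen_iff_mem_nhds]
    rintro y ⟨W, hW, hy, A, hA, h⟩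
    exact Filter.mem_of_superset (hW.mem_nhds hy) (fun y' hy' => ⟨W, hW, hy', A, hA, h⟩)
  have hD : ∀ N, Dense (O N) := by
    intro N
    rw [dense_iff_inter_open]
    rintro W₀ hW₀ ⟨y₀, hy₀⟩
    have he : (0 : ℝ) < 1 / ((N : ℝ) + 1) := by positivity
    -- V y₀ ⊆ W₀
    have c1 : Filter.Tendsto (fun v : H => v * y₀) (nhds (1 : H)) (nhds y₀) := by
      have : Continuous (fun v : H => v * y₀) := by fun_prop
      have h2 := this.tendsto (1 : H)
      simpa using h2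
    have hV := c1 (hW₀.mem_nhds hy₀)
    obtain ⟨A₁, hA₁, h₁⟩ := left_cauchy hp f _ hV
    obtain ⟨m, hm⟩ := f.nonempty_of_mem hA₁
    let z : H := m * y₀
    have c2 : Filter.Tendsto (fun p : H × H => p.1 * z * p.2) (nhds ((1 : H), (1 : H)))
        (nhds z) := by
      have : Continuous (fun p : H × H => p.1 * z * p.2) := by fun_prop
      have h2 := this.tendsto ((1 : H), (1 : H))
      simpa using h2
    have hB := c2 (Metric.ball_mem_nhds z (half_pos he))
    rw [Filter.mem_map, nhds_prod_eq, Filter.mem_prod_iff] at hB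
    obtain ⟨P, hP, Q, hQ, hPQ⟩ := hB
    obtain ⟨A₂, hA₂, h₂⟩ := right_cauchy hp f P hP
    obtain ⟨n₀, hn₀⟩ := f.nonempty_of_mem (Filter.inter_mem hA₁ hA₂)
    let y : H := n₀⁻¹ * z
    have hy : y ∈ W₀ := by
      have := h₁ n₀ hn₀.1 m hm
      simp only [Set.mem_preimage] at this
      simpa [y, z, mul_assoc] using this
    have c3 : Filter.Tendsto (fun w : H => y⁻¹ * w) (nhds y) (nhds (1 : H)) := by
      have : Continuous (fun w : H => y⁻¹ * w) := by fun_prop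
      have h2 := this.tendsto y
      simpa using h2
    have hW := c3 hQ
    obtain ⟨W, hWs, hWo, hyW⟩ := mem_nhds_iff.1 hW
    refine ⟨y, hy, W, hWo, hyW, A₂, hA₂, ?_⟩
    have key : ∀ x ∈ A₂, ∀ w ∈ W, dist (x * w) z < 1 / ((N : ℝ) + 1) / 2 := by
      intro x hx w hw
      have h5 : ((x * n₀⁻¹, y⁻¹ * w) : H × H) ∈ P ×ˢ Q := ⟨h₂ x hx n₀ hn₀.2, hWs hw⟩
      have h6 := hPQ h5
      simp only [Set.mem_preimage, Metric.mem_ball] at h6
      have h7 : x * n₀⁻¹ * z * (y⁻¹ * w) = x * w := by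
        simp only [y]
        group
      rwa [h7] at h6
    intro x hx x' hx' w hw w' hw'
    have e1 := key x hx w hw
    have e2 := key x' hx' w' hw'
    calc dist (x * w) (x' * w') ≤ dist (x * w) z + dist (x' * w') z := dist_triangle_right _ _ _
      _ < 1 / ((N : ℝ) + 1) := by linarith
  obtain ⟨y, hy⟩ := (dense_iInter_of_isOpen hO hD).nonempty
  rw [Set.mem_iInter] at hy
  -- the image filter is Cauchy
  have hcau : Cauchy ((f : Filter H).map (fun x => x * y)) := by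
    rw [Metric.cauchy_iff]
    refine ⟨inferInstance, ?_⟩
    intro ε hε
    obtain ⟨N, hN⟩ := exists_nat_one_div_lt hε
    obtain ⟨W, -, hyW, A, hA, h⟩ := hy N
    refine ⟨(fun x => x * y) '' A, Filter.image_mem_map hA, ?_⟩
    rintro _ ⟨x, hx, rfl⟩ _ ⟨x', hx', rfl⟩
    exact (h x hx x' hx' y hyW y hyW).trans hN
  obtain ⟨l, hl⟩ := CompleteSpace.complete hcau
  refine ⟨l * y⁻¹, Set.mem_univ _, ?_⟩
  have c4 : Filter.Tendsto (fun w : H => w * y⁻¹) (nhds l) (nhds (l * y⁻¹)) := by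
    have : Continuous (fun w : H => w * y⁻¹) := by fun_prop
    exact this.tendsto l
  have h8 : Filter.Tendsto (fun x : H => x * y * y⁻¹) (f : Filter H) (nhds (l * y⁻¹)) :=
    c4.comp hl
  have h9 : (fun x : H => x * y * y⁻¹) = id := by
    funext x
    simp
  rw [h9] at h8
  exact h8

end Pool.Agent.CMG.H32
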